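import Mathlib

/-!
The torus `ℝ^ι / ℤ^ι` as a smooth manifold whose charts are local inverses of the covering map,
and its product with a manifold `S`, modelled on the product of the two model spaces.
-/

set_option autoImplicit false

open scoped Manifold ContDiff Topology
open Set Filter

noncomputable section

namespace Pool.Agent.Lib.MP_666db5_gt.AD

/-- The torus. -/
def Tor (ι : Type) : Type := ι → AddCircle (1 : ℝ)

variable {ι : Type}

instance : TopologicalSpace (Tor ι) := inferInstanceAs (TopologicalSpace (ι → AddCircle (1 : ℝ)))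
instance : AddCommGroup (Tor ι) := inferInstanceAs (AddCommGroup (ι → AddCircle (1 : ℝ)))
instance : T2Space (Tor ι) := inferInstanceAs (T2Space (ι → AddCircle (1 : ℝ)))
instance : CompactSpace (Tor ι) := inferInstanceAs (CompactSpace (ι → AddCircle (1 : ℝ)))
instance : ConnectedSpace (Tor ι) := inferInstanceAs (ConnectedSpace (ι → AddCircle (1 : ℝ)))
instance : IsTopologicalAddGroup (Tor ι) :=
  inferInstanceAs (IsTopologicalAddGroup (ι → AddCircle (1 : ℝ)))

/-- The covering map. -/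
def proj : (ι → ℝ) →+ Tor ι where
  toFun y := fun i => ((y i : ℝ) : AddCircle (1 : ℝ))
  map_zero' := by
    funext i
    rfl
  map_add' y z := by
    funext i
    rfl

theorem proj_surjective : Function.Surjective (proj : (ι → ℝ) → Tor ι) := by
  intro x
  have : ∀ i, ∃ r : ℝ, (r : AddCircle (1 : ℝ)) = x i := fun i =>
    QuotientAddGroup.mk_surjective (x i)
  choose r hr using this
  exact ⟨r, funext hr⟩

theorem int_of_proj_eq_zero {y : ι → ℝ} (h : proj y = 0) (i : ι) : ∃ k : ℤ, y i = k := by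
  have h1 : ((y i : ℝ) : AddCircle (1 : ℝ)) = 0 := congrFun h i
  obtain ⟨k, hk⟩ := (AddCircle.coe_eq_zero_iff _).mp h1
  exact ⟨k, by rw [← hk, zsmul_eq_mul, mul_one]⟩

variable [Fintype ι]

theorem isLocalHomeomorph_proj : IsLocalHomeomorph (proj : (ι → ℝ) → Tor ι) := by
  intro y
  choose e he hf using fun i => AddCircle.isLocalHomeomorph_coe (1 : ℝ) (y i)
  refine ⟨OpenPartialHomeomorph.pi e, fun i _ => he i, ?_⟩
  funext z i
  exact congrFun (hf i) (z i)

theorem continuous_proj : Continuous (proj : (ι → ℝ) → Tor ι) :=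
  isLocalHomeomorph_proj.continuous

/-- A chosen lift of a point of the torus. -/
def lift (x : Tor ι) : ι → ℝ := (proj_surjective x).choose

omit [Fintype ι] in
theorem proj_lift (x : Tor ι) : proj (lift x) = x := (proj_surjective x).choose_spec

instance : ChartedSpace (ι → ℝ) (Tor ι) where
  atlas := Set.range (fun x => isLocalHomeomorph_proj.localInverseAt (lift x))
  chartAt x := isLocalHomeomorph_proj.localInverseAt (lift x)
  mem_chart_source x := by
    have := isLocalHomeomorph_proj.apply_self_mem_localInverseAt_source (x := lift x)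
    rwa [proj_lift] at this
  chart_mem_atlas x := ⟨x, rfl⟩

theorem chartAt_symm (x : Tor ι) : ⇑(chartAt (ι → ℝ) x).symm = proj :=
  isLocalHomeomorph_proj.localInverseAt_symm (lift x)

theorem proj_chartAt {x z : Tor ι} (hz : z ∈ (chartAt (ι → ℝ) x).source) :
    proj (chartAt (ι → ℝ) x z) = z := by
  rw [← chartAt_symm x]
  exact (chartAt (ι → ℝ) x).left_inv hz

/-- In every chart the covering map is locally a translation. -/
theorem chart_proj_eventuallyEq (x : Tor ι) (y : ι → ℝ)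
    (hy : proj y ∈ (chartAt (ι → ℝ) x).source) :
    (fun w => chartAt (ι → ℝ) x (proj w)) =ᶠ[𝓝 y]
      fun w => w + (chartAt (ι → ℝ) x (proj y) - y) := by
  obtain ⟨U, hUo, hU0, hUinj⟩ := (isLocalHomeomorph_proj (ι := ι)).isLocallyInjective 0
  have hcont : ContinuousAt
      (fun w => chartAt (ι → ℝ) x (proj w) - w - (chartAt (ι → ℝ) x (proj y) - y)) y := by
    refine (ContinuousAt.sub ?_ continuousAt_id).sub continuousAt_const
    exact ContinuousAt.comp (f := proj) ((chartAt (ι → ℝ) x).continuousAt hy)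
      continuous_proj.continuousAt
  have h1 : ∀ᶠ w in 𝓝 y,
      chartAt (ι → ℝ) x (proj w) - w - (chartAt (ι → ℝ) x (proj y) - y) ∈ U := by
    apply hcont.preimage_mem_nhds
    simpa using hUo.mem_nhds hU0
  have h2 : ∀ᶠ w in 𝓝 y, proj w ∈ (chartAt (ι → ℝ) x).source :=
    continuous_proj.continuousAt.preimage_mem_nhds ((chartAt (ι → ℝ) x).open_source.mem_nhds hy)
  filter_upwards [h1, h2] with w hw1 hw2
  have h3 : chartAt (ι → ℝ) x (proj w) - w - (chartAt (ι → ℝ) x (proj y) - y) = 0 := by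
    apply hUinj hw1 hU0
    simp only [map_sub, proj_chartAt hw2, proj_chartAt hy, sub_self, map_zero]
  have h4 : chartAt (ι → ℝ) x (proj w) = w + (chartAt (ι → ℝ) x (proj y) - y) := by
    rw [← sub_eq_zero, ← h3]; abel
  exact h4

theorem hasFDerivAt_chart_proj (x : Tor ι) (y : ι → ℝ)
    (hy : proj y ∈ (chartAt (ι → ℝ) x).source) :
    HasFDerivAt (fun w => chartAt (ι → ℝ) x (proj w)) (ContinuousLinearMap.id ℝ (ι → ℝ)) y :=
  ((hasFDerivAt_id y).add_const _).congr_of_eventuallyEq (chart_proj_eventuallyEq x y hy)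

theorem contDiffAt_chart_proj (x : Tor ι) (y : ι → ℝ)
    (hy : proj y ∈ (chartAt (ι → ℝ) x).source) :
    ContDiffAt ℝ ∞ (fun w => chartAt (ι → ℝ) x (proj w)) y :=
  (contDiffAt_id.add contDiffAt_const).congr_of_eventuallyEq (chart_proj_eventuallyEq x y hy)

instance : IsManifold 𝓘(ℝ, ι → ℝ) ∞ (Tor ι) := by
  apply isManifold_of_contDiffOn
  rintro e e' ⟨x, rfl⟩ ⟨x', rfl⟩ y hy
  apply ContDiffAt.contDiffWithinAt
  have hy' : proj y ∈ (chartAt (ι → ℝ) x').source := by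
    have h1 := hy.1
    simp only [modelWithCornersSelf_coe_symm, preimage_id_eq, id_eq,
      OpenPartialHomeomorph.trans_source, OpenPartialHomeomorph.symm_source, mem_inter_iff,
      mem_preimage] at h1
    have h2 := h1.2
    rw [isLocalHomeomorph_proj.localInverseAt_symm] at h2
    exact h2
  have := contDiffAt_chart_proj x' y hy'
  convert this using 1
  funext w
  simp only [modelWithCornersSelf_coe, modelWithCornersSelf_coe_symm, Function.comp_apply, id_eq,
    OpenPartialHomeomorph.coe_trans]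
  rw [isLocalHomeomorph_proj.localInverseAt_symm]
  rfl

theorem contMDiff_proj : ContMDiff 𝓘(ℝ, ι → ℝ) 𝓘(ℝ, ι → ℝ) ∞ (proj : (ι → ℝ) → Tor ι) := by
  intro y
  rw [contMDiffAt_iff]
  refine ⟨continuous_proj.continuousAt, ?_⟩
  have := contDiffAt_chart_proj (proj y) y (mem_chart_source (ι → ℝ) (proj y))
  exact this.contDiffWithinAt

/-- The product of the torus with a space `S`. -/
def Prd (ι : Type) (S : Type) : Type := Tor ι × S

/-- A point of the product. -/
def Prd.mk {S : Type} (a : Tor ι) (s : S) : Prd ι S := (a, s)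

variable {S : Type} [TopologicalSpace S]

instance : TopologicalSpace (Prd ι S) := inferInstanceAs (TopologicalSpace (Tor ι × S))
instance [T2Space S] : T2Space (Prd ι S) := inferInstanceAs (T2Space (Tor ι × S))
instance [CompactSpace S] : CompactSpace (Prd ι S) := inferInstanceAs (CompactSpace (Tor ι × S))
instance [ConnectedSpace S] : ConnectedSpace (Prd ι S) :=
  inferInstanceAs (ConnectedSpace (Tor ι × S))

variable {G : Type} [NormedAddCommGroup G] [NormedSpace ℝ G] [ChartedSpace G S]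

instance : ChartedSpace ((ι → ℝ) × G) (Prd ι S) := prodChartedSpace (ι → ℝ) (Tor ι) G S

instance [IsManifold 𝓘(ℝ, G) ∞ S] : IsManifold 𝓘(ℝ, (ι → ℝ) × G) ∞ (Prd ι S) := by
  rw [modelWithCornersSelf_prod]
  exact IsManifold.prod (Tor ι) S

omit [NormedSpace ℝ G] in
theorem mem_source_iff {x z : Prd ι S} : z ∈ (chartAt ((ι → ℝ) × G) x).source ↔
    z.1 ∈ (chartAt (ι → ℝ) x.1).source ∧ z.2 ∈ (chartAt G x.2).source := Iff.rfl

theorem extChartAt_apply (x z : Prd ι S) : extChartAt 𝓘(ℝ, (ι → ℝ) × G) x z =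
    (chartAt (ι → ℝ) x.1 z.1, extChartAt 𝓘(ℝ, G) x.2 z.2) := rfl

theorem extChartAt_symm_apply (x : Prd ι S) (y : (ι → ℝ) × G) :
    (extChartAt 𝓘(ℝ, (ι → ℝ) × G) x).symm y =
      Prd.mk (proj y.1) ((extChartAt 𝓘(ℝ, G) x.2).symm y.2) := by
  rw [← chartAt_symm x.1]
  rfl

theorem contMDiff_snd' :
    ContMDiff 𝓘(ℝ, (ι → ℝ) × G) 𝓘(ℝ, G) ∞ (fun x : Prd ι S => x.2) := by
  rw [modelWithCornersSelf_prod]
  exact contMDiff_snd (M := Tor ι) (N := S)

theorem contMDiff_fst' :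
    ContMDiff 𝓘(ℝ, (ι → ℝ) × G) 𝓘(ℝ, ι → ℝ) ∞ (fun x : Prd ι S => x.1) := by
  rw [modelWithCornersSelf_prod]
  exact contMDiff_fst (M := Tor ι) (N := S)

theorem contMDiffAt_mk {E' H' N : Type} [NormedAddCommGroup E'] [NormedSpace ℝ E']
    [TopologicalSpace H'] {J : ModelWithCorners ℝ E' H'} [TopologicalSpace N] [ChartedSpace H' N]
    {f : N → Tor ι} {g : N → S} {a : N} (hf : ContMDiffAt J 𝓘(ℝ, ι → ℝ) ∞ f a)
    (hg : ContMDiffAt J 𝓘(ℝ, G) ∞ g a) :
    ContMDiffAt J 𝓘(ℝ, (ι → ℝ) × G) ∞ (fun b => Prd.mk (f b) (g b)) a := by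
  rw [modelWithCornersSelf_prod]
  exact hf.prodMk hg

variable [IsManifold 𝓘(ℝ, G) ∞ S]

/-- The transition maps are the identity in the directions of the torus. -/
theorem hasFDerivAt_transition {x x' z : Prd ι S} (hz : z ∈ (chartAt ((ι → ℝ) × G) x).source)
    (hz' : z ∈ (chartAt ((ι → ℝ) × G) x').source) :
    HasFDerivAt (extChartAt 𝓘(ℝ, (ι → ℝ) × G) x' ∘ (extChartAt 𝓘(ℝ, (ι → ℝ) × G) x).symm)
      ((ContinuousLinearMap.id ℝ (ι → ℝ)).prodMap (tangentCoordChange 𝓘(ℝ, G) x.2 x'.2 z.2))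
      (extChartAt 𝓘(ℝ, (ι → ℝ) × G) x z) := by
  have h1 : proj (chartAt (ι → ℝ) x.1 z.1) ∈ (chartAt (ι → ℝ) x'.1).source := by
    rw [proj_chartAt hz.1]; exact hz'.1
  have h2 := hasFDerivAt_chart_proj x'.1 _ h1
  have h3 := hasFDerivWithinAt_tangentCoordChange (I := 𝓘(ℝ, G)) (x := x.2) (y := x'.2) (z := z.2)
    ⟨by rw [extChartAt_source]; exact hz.2, by rw [extChartAt_source]; exact hz'.2⟩
  rw [modelWithCornersSelf_coe, range_id, hasFDerivWithinAt_univ] at h3
  have h4 := HasFDerivAt.prodMap (p := extChartAt 𝓘(ℝ, (ι → ℝ) × G) x z) h2 h3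
  convert h4 using 1
  funext y
  rw [Function.comp_apply, extChartAt_symm_apply]
  rfl

theorem coordChange_eq {x x' z : Prd ι S} (hz : z ∈ (chartAt ((ι → ℝ) × G) x).source)
    (hz' : z ∈ (chartAt ((ι → ℝ) × G) x').source) :
    (tangentBundleCore 𝓘(ℝ, (ι → ℝ) × G) (Prd ι S)).coordChange (achart ((ι → ℝ) × G) x)
      (achart ((ι → ℝ) × G) x') z =
      (ContinuousLinearMap.id ℝ (ι → ℝ)).prodMap (tangentCoordChange 𝓘(ℝ, G) x.2 x'.2 z.2) := by
  rw [tangentBundleCore_coordChange_achart, modelWithCornersSelf_coe, range_id, fderivWithin_univ]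
  exact (hasFDerivAt_transition hz hz').fderiv

theorem mfderiv_extChartAt_self (x : Prd ι S) :
    mfderiv 𝓘(ℝ, (ι → ℝ) × G) 𝓘(ℝ, (ι → ℝ) × G) (extChartAt 𝓘(ℝ, (ι → ℝ) × G) x) x =
      ContinuousLinearMap.id ℝ ((ι → ℝ) × G) := by
  have h := (hasMFDerivAt_extChartAt (I := 𝓘(ℝ, (ι → ℝ) × G)) (x := x)
    (mem_chart_source _ x)).mfderiv
  rw [h]
  have h2 := mfderiv_chartAt_eq_tangentCoordChange (I := 𝓘(ℝ, (ι → ℝ) × G)) (x := x) (y := x)
    (mem_chart_source _ x)
  rw [h2]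
  exact ContinuousLinearMap.ext fun u => tangentCoordChange_self (mem_extChartAt_source x)

/-- The differential of the inverse chart does not change the component along the torus. -/
theorem mfderiv_symm_fst (x : Prd ι S) {y : (ι → ℝ) × G}
    (hy : y ∈ (extChartAt 𝓘(ℝ, (ι → ℝ) × G) x).target) (u : (ι → ℝ) × G) :
    ((mfderiv 𝓘(ℝ, (ι → ℝ) × G) 𝓘(ℝ, (ι → ℝ) × G) (extChartAt 𝓘(ℝ, (ι → ℝ) × G) x).symm y u :
      (ι → ℝ) × G)).1 = u.1 := by
  set z : Prd ι S := (extChartAt 𝓘(ℝ, (ι → ℝ) × G) x).symm y with hzdef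
  have hz : z ∈ (chartAt ((ι → ℝ) × G) x).source := by
    rw [← extChartAt_source 𝓘(ℝ, (ι → ℝ) × G)]
    exact (extChartAt 𝓘(ℝ, (ι → ℝ) × G) x).map_target hy
  have h1 := hasFDerivAt_transition hz (mem_chart_source _ z)
  rw [hzdef, (extChartAt 𝓘(ℝ, (ι → ℝ) × G) x).right_inv hy, ← hzdef] at h1
  have h2 : HasMFDerivAt 𝓘(ℝ, (ι → ℝ) × G) 𝓘(ℝ, (ι → ℝ) × G)
      (extChartAt 𝓘(ℝ, (ι → ℝ) × G) x).symm y
      ((ContinuousLinearMap.id ℝ (ι → ℝ)).prodMap (tangentCoordChange 𝓘(ℝ, G) x.2 z.2 z.2)) :=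
    ⟨continuousAt_extChartAt_symm'' hy, h1.hasFDerivWithinAt⟩
  rw [h2.mfderiv]
  rfl

omit [IsManifold 𝓘(ℝ, G) ∞ S] in
/-- A straight line in the torus factor. -/
theorem hasMFDerivAt_line (a r : ι → ℝ) (s : S) (τ : ℝ) :
    HasMFDerivAt 𝓘(ℝ, ℝ) 𝓘(ℝ, (ι → ℝ) × G) (fun t : ℝ => Prd.mk (proj (a + t • r)) s) τ
      ((1 : ℝ →L[ℝ] ℝ).smulRight ((r, 0) : (ι → ℝ) × G)) := by
  have h1 : HasFDerivAt (fun t : ℝ => a + t • r) ((1 : ℝ →L[ℝ] ℝ).smulRight r) τ :=
    ((hasFDerivAt_id τ).smul_const r).const_add _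
  refine ⟨(continuous_proj.continuousAt.comp h1.continuousAt).prodMk continuousAt_const, ?_⟩
  have h2 := (hasFDerivAt_chart_proj (proj (a + τ • r)) (a + τ • r)
    (mem_chart_source _ _)).comp τ h1
  have h3 := h2.prodMk (hasFDerivAt_const (extChartAt 𝓘(ℝ, G) s s) τ)
  have h4 : (((ContinuousLinearMap.id ℝ (ι → ℝ)).comp ((1 : ℝ →L[ℝ] ℝ).smulRight r)).prod
      (0 : ℝ →L[ℝ] G)) = (1 : ℝ →L[ℝ] ℝ).smulRight ((r, 0) : (ι → ℝ) × G) := by
    ext <;> simp
  rw [h4] at h3
  exact h3.hasFDerivWithinAt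

end Pool.Agent.Lib.MP_666db5_gt.AD
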