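import Mathlib
import Pool.Agent.Lib.MP_666db5_gt.Defs
import Pool.Agent.Lib.MP_666db5_gt.AD.Torus

/-!
The `q`-contact structure `λ_0 = ⟨p, dx - ∑ v_j dθ_j⟩`, `λ_(j+1) = λ_0 + dθ_j` on the product of
a torus with coordinates `(x, θ)` and the unit sphere with coordinate `p`.  Here `n = m + 1` and
`q = k + 2`.
-/

set_option autoImplicit false

open scoped Manifold ContDiff Topology RealInnerProductSpace
open Set Filter

noncomputable section

namespace Pool.Agent.Lib.MP_666db5_gt.AD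

/-- The Euclidean space that contains the sphere. -/
abbrev V (m : ℕ) : Type := EuclideanSpace ℝ (Fin (m + 1 + 1))

/-- The model space of the sphere. -/
abbrev G (m : ℕ) : Type := EuclideanSpace ℝ (Fin (m + 1))

/-- The sphere. -/
abbrev Sph (m : ℕ) : Type := Metric.sphere (0 : V m) 1

/-- The coordinates of the torus. -/
abbrev Ix (m k : ℕ) : Type := Fin (m + 1 + 1) ⊕ Fin (k + 1)

/-- The model space. -/
abbrev E (m k : ℕ) : Type := (Ix m k → ℝ) × G m

/-- The manifold. -/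
abbrev Mf (m k : ℕ) : Type := Prd (Ix m k) (Sph m)

instance (m : ℕ) : Fact (Module.finrank ℝ (V m) = m + 1 + 1) := ⟨finrank_euclideanSpace_fin⟩

instance (m : ℕ) : ConnectedSpace (Sph m) := by
  apply Subtype.connectedSpace
  apply isConnected_sphere _ _ zero_le_one
  rw [← Module.finrank_eq_rank, finrank_euclideanSpace_fin]
  exact_mod_cast Nat.succ_lt_succ (Nat.succ_pos m)

variable {m k : ℕ}

/-- The translation vectors; their entries are powers of a transcendental number. -/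
def vv (j : Fin (k + 1)) (i : Fin (m + 1 + 1)) : ℝ :=
  if i = 0 then liouvilleNumber 2 ^ (j.succ : ℕ) else liouvilleNumber 2 ^ ((k + 1 + 1) * (j.succ : ℕ))

/-- The vector valued form `dx - ∑ v_j dθ_j`. -/
def LL : (Ix m k → ℝ) →L[ℝ] V m :=
  LinearMap.toContinuousLinearMap
    { toFun := fun a => WithLp.toLp 2 (fun i => a (Sum.inl i) - ∑ j, a (Sum.inr j) * vv j i)
      map_add' := fun a b => by
        ext i
        simp only [Pi.add_apply, PiLp.add_apply, add_mul, Finset.sum_add_distrib]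
        ring
      map_smul' := fun c a => by
        ext i
        simp only [Pi.smul_apply, PiLp.smul_apply, smul_eq_mul, RingHom.id_apply, mul_assoc,
          ← Finset.mul_sum]
        ring }

theorem LL_apply (a : Ix m k → ℝ) (i : Fin (m + 1 + 1)) :
    LL a i = a (Sum.inl i) - ∑ j, a (Sum.inr j) * vv j i := rfl

/-- The closed forms `0, dθ_0, …, dθ_k`. -/
def th (j : Fin (k + 1 + 1)) : (Ix m k → ℝ) →L[ℝ] ℝ :=
  Fin.cons (α := fun _ => (Ix m k → ℝ) →L[ℝ] ℝ) 0
    (fun j => ContinuousLinearMap.proj (R := ℝ) (φ := fun _ : Ix m k => ℝ) (Sum.inr j)) j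

theorem th_zero (a : Ix m k → ℝ) : th 0 a = 0 := rfl

theorem th_succ (j : Fin (k + 1)) (a : Ix m k → ℝ) : th j.succ a = a (Sum.inr j) := rfl

/-- The form `⟨p, dx - ∑ v_j dθ_j⟩` as a linear function of `p`. -/
def BB : V m →L[ℝ] (E m k →L[ℝ] ℝ) :=
  ((ContinuousLinearMap.compL ℝ (E m k) (V m) ℝ).flip
    (LL.comp (ContinuousLinearMap.fst ℝ (Ix m k → ℝ) (G m)))).comp (innerSL ℝ)

theorem BB_apply (p : V m) (u : E m k) : BB p u = ⟪p, LL u.1⟫ := rfl

/-- The forms, as functions of the point of the sphere. -/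
def formV (j : Fin (k + 1 + 1)) (p : V m) : E m k →L[ℝ] ℝ :=
  BB p + (th j).comp (ContinuousLinearMap.fst ℝ (Ix m k → ℝ) (G m))

theorem formV_apply (j : Fin (k + 1 + 1)) (p : V m) (u : E m k) :
    formV j p u = ⟪p, LL u.1⟫ + th j u.1 := rfl

/-- The point of the sphere. -/
def pt (x : Mf m k) : V m := (x.2 : Sph m)

theorem inner_pt (x : Mf m k) : ⟪pt x, pt x⟫ = 1 := by
  rw [real_inner_self_eq_norm_sq, pt, norm_eq_of_mem_sphere]
  norm_num

theorem contMDiff_pt : ContMDiff 𝓘(ℝ, E m k) 𝓘(ℝ, V m) ∞ (pt : Mf m k → V m) :=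
  (contMDiff_coe_sphere (n := m + 1)).comp contMDiff_snd'

/-- The forms. -/
def form (j : Fin (k + 1 + 1)) : OneForm (E m k) (Mf m k) := fun x => formV j (pt x)

theorem isSmoothForm_form (j : Fin (k + 1 + 1)) : IsSmoothForm (form (m := m) j) := by
  intro x₀
  rw [contMDiffAt_hom_bundle]
  refine ⟨contMDiffAt_id, ?_⟩
  have h1 : ContMDiff 𝓘(ℝ, E m k) 𝓘(ℝ, E m k →L[ℝ] ℝ) ∞ (fun x : Mf m k => formV j (pt x)) :=
    ((BB.contDiff.add contDiff_const).contMDiff).comp contMDiff_pt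
  refine (h1 x₀).congr_of_eventuallyEq ?_
  filter_upwards [(chartAt (E m k) x₀).open_source.mem_nhds (mem_chart_source (E m k) x₀)] with z hz
  simp only [ContinuousLinearMap.inCoordinates]
  rw [TangentBundle.symmL_trivializationAt_eq_core hz,
    coordChange_eq hz (mem_chart_source (E m k) z)]
  refine ContinuousLinearMap.ext fun v => ?_
  simp only [form, Bundle.Trivial.fiberBundle_trivializationAt',
    Bundle.Trivial.continuousLinearMapAt_trivialization]
  rfl

/-- The differential of the inclusion of the sphere. -/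
def dP (x : Mf m k) : G m →L[ℝ] V m :=
  mfderiv (𝓡 (m + 1)) 𝓘(ℝ, V m) ((↑) : Sph m → V m) x.2

theorem dP_injective (x : Mf m k) : Function.Injective (dP x) :=
  mfderiv_coe_sphere_injective (n := m + 1) x.2

theorem range_dP (x : Mf m k) : (dP x).range = (ℝ ∙ pt x)ᗮ :=
  range_mfderiv_coe_sphere (n := m + 1) x.2

theorem hasFDerivAt_formInChart (j : Fin (k + 1 + 1)) (x : Mf m k) :
    HasFDerivAt (formInChart (form j) x)
      (BB.comp ((dP x).comp (ContinuousLinearMap.snd ℝ (Ix m k → ℝ) (G m))))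
      (extChartAt 𝓘(ℝ, E m k) x x) := by
  have h1 : MDifferentiableAt (𝓡 (m + 1)) 𝓘(ℝ, V m) ((↑) : Sph m → V m) x.2 :=
    (contMDiff_coe_sphere (n := m + 1) (m := 1) x.2).mdifferentiableAt one_ne_zero
  have h2 := h1.hasMFDerivAt.2
  rw [modelWithCornersSelf_coe, range_id] at h2
  have h3 : HasFDerivAt (fun y : G m => (((extChartAt 𝓘(ℝ, G m) x.2).symm y : Sph m) : V m))
      (dP x) (extChartAt 𝓘(ℝ, E m k) x x).2 := hasFDerivWithinAt_univ.mp h2
  have h4 := (BB.hasFDerivAt.comp (extChartAt 𝓘(ℝ, E m k) x x)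
    (h3.comp (extChartAt 𝓘(ℝ, E m k) x x) hasFDerivAt_snd)).add_const
      ((th j).comp (ContinuousLinearMap.fst ℝ (Ix m k → ℝ) (G m)))
  refine h4.congr_of_eventuallyEq ?_
  have h5 : (extChartAt 𝓘(ℝ, E m k) x).target ∈ 𝓝 (extChartAt 𝓘(ℝ, E m k) x x) :=
    extChartAt_target_mem_nhds x
  filter_upwards [h5] with y hy
  refine ContinuousLinearMap.ext fun w => ?_
  have h6 := mfderiv_symm_fst x hy w
  change formV j (pt ((extChartAt 𝓘(ℝ, E m k) x).symm y))
    (mfderiv 𝓘(ℝ, E m k) 𝓘(ℝ, E m k) (extChartAt 𝓘(ℝ, E m k) x).symm y w) = _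
  rw [formV_apply, h6, extChartAt_symm_apply]
  rfl

theorem extD_form (j : Fin (k + 1 + 1)) (x : Mf m k) (u w : E m k) :
    extD (form j) x u w = ⟪dP x u.2, LL w.1⟫ - ⟪dP x w.2, LL u.1⟫ := by
  unfold extD
  rw [(hasFDerivAt_formInChart j x).fderiv, mfderiv_extChartAt_self]
  rfl

/-- The displacement along the torus in time `t`. -/
def psi (p : V m) (t : Fin (k + 1 + 1) → ℝ) : Ix m k → ℝ :=
  Sum.elim (fun i => t 0 * p i + ∑ j : Fin (k + 1), (t j.succ - t 0) * vv j i)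
    (fun j => t j.succ - t 0)

theorem psi_add (p : V m) (s t : Fin (k + 1 + 1) → ℝ) : psi p (s + t) = psi p s + psi p t := by
  funext i
  rcases i with i | i
  · simp only [psi, Sum.elim_inl, Pi.add_apply, add_mul, sub_mul, Finset.sum_add_distrib,
      Finset.sum_sub_distrib]
    ring
  · simp only [psi, Sum.elim_inr, Pi.add_apply]
    ring

theorem psi_smul (p : V m) (c : ℝ) (t : Fin (k + 1 + 1) → ℝ) : psi p (c • t) = c • psi p t := by
  funext i
  rcases i with i | i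
  · simp only [psi, Sum.elim_inl, Pi.smul_apply, smul_eq_mul, ← mul_sub, mul_assoc,
      ← Finset.mul_sum]
    ring
  · simp only [psi, Sum.elim_inr, Pi.smul_apply, smul_eq_mul]
    ring

theorem LL_psi (p : V m) (t : Fin (k + 1 + 1) → ℝ) : LL (psi p t) = t 0 • p := by
  ext i
  simp only [LL_apply, psi, Sum.elim_inl, Sum.elim_inr, PiLp.smul_apply, smul_eq_mul]
  ring

theorem form_psi (j : Fin (k + 1 + 1)) (x : Mf m k) (t : Fin (k + 1 + 1) → ℝ) :
    formV j (pt x) ((psi (pt x) t, 0) : E m k) = t j := by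
  rw [formV_apply, LL_psi, inner_smul_right, inner_pt, mul_one]
  refine Fin.cases ?_ (fun j => ?_) j
  · rw [th_zero, add_zero]
  · rw [th_succ]
    simp only [psi, Sum.elim_inr]
    ring

theorem contDiff_psi :
    ContDiff ℝ ∞ (fun a : (Fin (k + 1 + 1) → ℝ) × V m => psi a.2 a.1) := by
  have h1 : ∀ j, ContDiff ℝ ∞ (fun a : (Fin (k + 1 + 1) → ℝ) × V m => a.1 j) := fun j =>
    (contDiff_apply ℝ ℝ j).comp contDiff_fst
  have h2 : ∀ i, ContDiff ℝ ∞ (fun a : (Fin (k + 1 + 1) → ℝ) × V m => a.2 i) := fun i =>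
    (EuclideanSpace.proj (𝕜 := ℝ) i).contDiff.comp contDiff_snd
  rw [contDiff_pi]
  rintro (i | i)
  · exact ((h1 0).mul (h2 i)).add
      (ContDiff.sum fun j _ => ((h1 _).sub (h1 0)).mul contDiff_const)
  · exact (h1 _).sub (h1 0)

/-- The bundle spanned by the Reeb fields. -/
def reebSub (x : Mf m k) : Submodule ℝ (E m k) :=
  (ContinuousLinearMap.snd ℝ (Ix m k → ℝ) (G m)).ker ⊓
    (ℝ ∙ pt x).comap (LL.comp (ContinuousLinearMap.fst ℝ (Ix m k → ℝ) (G m))).toLinearMap

theorem mem_reebSub (x : Mf m k) (u : E m k) :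
    u ∈ reebSub x ↔ u.2 = 0 ∧ LL u.1 ∈ ℝ ∙ pt x := Iff.rfl

/-- The contact distribution. -/
def xiSub (x : Mf m k) : Submodule ℝ (E m k) := ⨅ j, (formV j (pt x)).ker

theorem mem_xiSub (x : Mf m k) (u : E m k) : u ∈ xiSub x ↔ ∀ j, formV j (pt x) u = 0 := by
  simp [xiSub]

theorem psi_mem (x : Mf m k) (t : Fin (k + 1 + 1) → ℝ) :
    ((psi (pt x) t, 0) : E m k) ∈ reebSub x := by
  rw [mem_reebSub, LL_psi]
  exact ⟨rfl, Submodule.smul_mem _ _ (Submodule.mem_span_singleton_self _)⟩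

theorem eq_zero_of_mem {x : Mf m k} {u : E m k} (hu : u ∈ reebSub x) (hu' : u ∈ xiSub x) :
    u = 0 := by
  rw [mem_xiSub] at hu'
  obtain ⟨h2, h1⟩ := (mem_reebSub x u).mp hu
  obtain ⟨c, hc⟩ := Submodule.mem_span_singleton.mp h1
  have h0 := hu' 0
  rw [formV_apply, ← hc, inner_smul_right, inner_pt, th_zero, mul_one, add_zero] at h0
  rw [h0, zero_smul] at hc
  have h3 : ∀ j, u.1 (Sum.inr j) = 0 := fun j => by
    have := hu' j.succ
    rwa [formV_apply, ← hc, inner_zero_right, th_succ, zero_add] at this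
  refine Prod.ext ?_ h2
  funext i
  rcases i with i | i
  · have h4 : LL u.1 i = 0 := by rw [← hc]; rfl
    simpa [LL_apply, h3] using h4
  · exact h3 i

theorem sub_psi_mem (x : Mf m k) (w : E m k) :
    w - ((psi (pt x) (fun j => formV j (pt x) w), 0) : E m k) ∈ xiSub x := by
  rw [mem_xiSub]
  intro j
  rw [map_sub, form_psi, sub_self]

theorem isCompl_sub (x : Mf m k) : IsCompl (reebSub x) (xiSub x) := by
  constructor
  · rw [Submodule.disjoint_def]
    intro u hu hu'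
    exact eq_zero_of_mem hu hu'
  · rw [codisjoint_iff, eq_top_iff]
    intro w _
    rw [Submodule.mem_sup]
    exact ⟨_, psi_mem x (fun j => formV j (pt x) w), _, sub_psi_mem x w, by abel⟩

theorem mem_reeb_aux (j : Fin (k + 1 + 1)) (x : Mf m k) (u : E m k) :
    u ∈ reebSub x ↔ ∀ w : E m k, extD (form j) x u w = 0 := by
  rw [mem_reebSub]
  constructor
  · rintro ⟨h2, h1⟩ w
    have h3 : dP x w.2 ∈ (ℝ ∙ pt x)ᗮ := by
      rw [← range_dP]
      exact ⟨w.2, rfl⟩
    rw [extD_form, h2, map_zero, inner_zero_left, zero_sub, neg_eq_zero, real_inner_comm]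
    exact h3 _ h1
  · intro h
    constructor
    · have h1 := h (Sum.elim (fun i => dP x u.2 i) 0, 0)
      have h2 : LL (Sum.elim (fun i => dP x u.2 i) 0 : Ix m k → ℝ) = dP x u.2 := by
        ext i
        simp [LL_apply]
      rw [extD_form, h2, map_zero, inner_zero_left, sub_zero, inner_self_eq_zero] at h1
      apply dP_injective x
      rw [h1, map_zero]
    · rw [← Submodule.orthogonal_orthogonal (ℝ ∙ pt x), ← range_dP]
      rintro _ ⟨b, rfl⟩
      have h1 := h (0, b)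
      rw [extD_form, map_zero, inner_zero_right, zero_sub, neg_eq_zero] at h1
      exact h1

theorem nondeg_aux (j : Fin (k + 1 + 1)) (x : Mf m k) (u : E m k) (hu : u ∈ xiSub x)
    (h : ∀ w : E m k, w ∈ xiSub x → extD (form j) x u w = 0) : u = 0 := by
  refine eq_zero_of_mem ((mem_reeb_aux j x u).mpr fun w => ?_) hu
  have h1 := h _ (sub_psi_mem x w)
  have h2 := (mem_reeb_aux j x _).mp (psi_mem x (fun j => formV j (pt x) w)) u
  rw [extD_form] at h1 h2 ⊢
  simp only [Prod.fst_sub, Prod.snd_sub, map_sub, inner_sub_left, inner_sub_right] at h1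
  linarith

/-- The Reeb fields. -/
def reebField (i : Fin (k + 1 + 1)) (x : Mf m k) : TangentSpace 𝓘(ℝ, E m k) x :=
  ((psi (pt x) (Pi.single i 1), 0) : E m k)

theorem form_reebField (i j : Fin (k + 1 + 1)) (x : Mf m k) :
    form j x (reebField i x) = if i = j then 1 else 0 := by
  refine (form_psi j x _).trans ?_
  rw [Pi.single_apply]
  simp only [eq_comm]

/-- The contact structure. -/
def structureQ (m k : ℕ) : QContact (E m k) (k + 1 + 1) (Mf m k) where
  lam := form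
  reeb := fun x => reebSub x
  xi := fun x => xiSub x
  smooth := isSmoothForm_form
  linearIndependent := by
    intro x
    rw [Fintype.linearIndependent_iff]
    intro g hg j
    have h2 := DFunLike.congr_fun hg (reebField j x)
    simpa [form_reebField] using h2
  isCompl := isCompl_sub
  mem_xi := fun x v => mem_xiSub x v
  nondegenerate := fun i x u hu h => nondeg_aux i x u hu h
  mem_reeb := fun i x u => mem_reeb_aux i x u

theorem isReebFrame : (structureQ m k).IsReebFrame reebField := by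
  refine ⟨fun i x₀ => ?_, fun i x => psi_mem x _, fun i j x => form_reebField i j x⟩
  rw [Bundle.contMDiffAt_totalSpace]
  refine ⟨contMDiffAt_id, ?_⟩
  have h1 : ContDiff ℝ ∞ (fun p : V m => (psi p (Pi.single i 1) : Ix m k → ℝ)) :=
    contDiff_psi.comp ((contDiff_const (c := (Pi.single i 1 : Fin (k + 1 + 1) → ℝ))).prodMk
      contDiff_id)
  have h0 : ContDiff ℝ ∞ (fun p : V m => ((psi p (Pi.single i 1), 0) : E m k)) :=
    h1.prodMk contDiff_const
  refine ((h0.contMDiff.comp contMDiff_pt) x₀).congr_of_eventuallyEq ?_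
  filter_upwards [(chartAt (E m k) x₀).open_source.mem_nhds (mem_chart_source (E m k) x₀)] with z hz
  have h := coordChange_eq (mem_chart_source (E m k) z) hz
  have h2 := DFunLike.congr_fun h ((psi (pt z) (Pi.single i 1), 0) : E m k)
  refine h2.trans ?_
  simp

/-- The contact action. -/
def act (t : Fin (k + 1 + 1) → ℝ) (x : Mf m k) : Mf m k :=
  Prd.mk (x.1 + proj (psi (pt x) t)) x.2

theorem pt_act (t : Fin (k + 1 + 1) → ℝ) (x : Mf m k) : pt (act t x) = pt x := rfl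

theorem contMDiff_act :
    ContMDiff (𝓘(ℝ, Fin (k + 1 + 1) → ℝ).prod 𝓘(ℝ, E m k)) 𝓘(ℝ, E m k) ∞
      (fun a : (Fin (k + 1 + 1) → ℝ) × Mf m k => act a.1 a.2) := by
  intro a₀
  refine contMDiffAt_mk ?_ ((contMDiff_snd'.comp contMDiff_snd) a₀)
  have hd : ContMDiff (𝓘(ℝ, Fin (k + 1 + 1) → ℝ).prod 𝓘(ℝ, E m k)) 𝓘(ℝ, Ix m k → ℝ) ∞
      (fun a : (Fin (k + 1 + 1) → ℝ) × Mf m k => psi (pt a.2) a.1) :=
    contDiff_psi.contMDiff.comp (contMDiff_fst.prodMk_space (contMDiff_pt.comp contMDiff_snd))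
  have hf : ContMDiff (𝓘(ℝ, Fin (k + 1 + 1) → ℝ).prod 𝓘(ℝ, E m k)) 𝓘(ℝ, Ix m k → ℝ) ∞
      (fun a : (Fin (k + 1 + 1) → ℝ) × Mf m k => a.2.1) := contMDiff_fst'.comp contMDiff_snd
  have he : ContMDiffAt (𝓘(ℝ, Fin (k + 1 + 1) → ℝ).prod 𝓘(ℝ, E m k)) 𝓘(ℝ, Ix m k → ℝ) ∞
      (fun a : (Fin (k + 1 + 1) → ℝ) × Mf m k => extChartAt 𝓘(ℝ, Ix m k → ℝ) a₀.2.1 a.2.1) a₀ :=
    ContMDiffAt.comp a₀ (contMDiffAt_extChartAt (I := 𝓘(ℝ, Ix m k → ℝ)) (x := a₀.2.1)) (hf a₀)
  have h1 : ContMDiffAt (𝓘(ℝ, Fin (k + 1 + 1) → ℝ).prod 𝓘(ℝ, E m k)) 𝓘(ℝ, Ix m k → ℝ) ∞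
      (fun a : (Fin (k + 1 + 1) → ℝ) × Mf m k =>
        proj (extChartAt 𝓘(ℝ, Ix m k → ℝ) a₀.2.1 a.2.1 + psi (pt a.2) a.1)) a₀ :=
    ContMDiffAt.comp a₀ (contMDiff_proj _) (he.add (hd a₀))
  refine h1.congr_of_eventuallyEq ?_
  have h2 : ∀ᶠ a : (Fin (k + 1 + 1) → ℝ) × Mf m k in 𝓝 a₀,
      a.2.1 ∈ (chartAt (Ix m k → ℝ) a₀.2.1).source :=
    hf.continuous.continuousAt.preimage_mem_nhds
      ((chartAt (Ix m k → ℝ) a₀.2.1).open_source.mem_nhds (mem_chart_source _ a₀.2.1))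
  filter_upwards [h2] with a ha
  rw [map_add]
  congr 1
  exact (proj_chartAt ha).symm

theorem isActionOfFlows : IsActionOfFlows (reebField (m := m) (k := k)) act := by
  refine ⟨contMDiff_act, fun x => ?_, fun s t x => ?_, fun i x τ => ?_⟩
  · have h : psi (pt x) (0 : Fin (k + 1 + 1) → ℝ) = 0 := by
      have := psi_smul (pt x) 0 (0 : Fin (k + 1 + 1) → ℝ)
      rwa [zero_smul, zero_smul] at this
    rw [act, h, map_zero, add_zero]
    rfl
  · refine Prod.ext ?_ rfl
    change x.1 + proj (psi (pt x) (s + t)) = x.1 + proj (psi (pt x) t) + proj (psi (pt x) s)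
    rw [psi_add, map_add]
    abel
  · have h3 : (fun τ : ℝ => act (Pi.single i τ) x) =
        fun τ : ℝ => Prd.mk (proj (lift x.1 + τ • psi (pt x) (Pi.single i 1))) x.2 := by
      funext τ
      rw [act, map_add, proj_lift, ← psi_smul, ← Pi.single_smul', smul_eq_mul, mul_one]
    have h4 := hasMFDerivAt_line (G := G m) (lift x.1) (psi (pt x) (Pi.single i 1)) x.2 τ
    rw [← h3] at h4
    exact h4

end Pool.Agent.Lib.MP_666db5_gt.AD
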