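import Mathlib
import Pool.Agent.Lib.MP_666db5_gt.Defs
import Pool.Agent.Lib.MP_666db5_gt.AD.Structure

/-!
Every isotropy group of the contact action lies on a line, so no leaf is compact.
-/

set_option autoImplicit false

open scoped Manifold ContDiff Topology
open Set Filter

noncomputable section

namespace Pool.Agent.Lib.MP_666db5_gt.AD

/-- If an orbit of a continuous action of `ℝ^q` is compact, a bounded set of times fills it. -/
theorem exists_bound_of_isCompact {q : ℕ} {M : Type} [TopologicalSpace M] [T2Space M]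
    {F : (Fin q → ℝ) → M → M} (hF : Continuous fun p : (Fin q → ℝ) × M => F p.1 p.2)
    (h0 : ∀ x, F 0 x = x) (hadd : ∀ s t x, F (s + t) x = F s (F t x)) {x : M}
    (hc : IsCompact (leaf F x)) : ∃ C : ℝ, ∀ s, ∃ s', ‖s'‖ ≤ C ∧ F s' x = F s x := by
  have hx : Continuous fun s => F s x := hF.comp (continuous_id.prodMk continuous_const)
  have : CompactSpace (leaf F x) := isCompact_iff_compactSpace.mp hc
  have : Nonempty (leaf F x) := ⟨⟨x, 0, h0 x⟩⟩
  let K : ℕ → Set (leaf F x) := fun n =>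
    Subtype.val ⁻¹' ((fun s => F s x) '' Metric.closedBall 0 n)
  have hK : ∀ n, IsClosed (K n) := fun n =>
    ((isCompact_closedBall _ _).image hx).isClosed.preimage continuous_subtype_val
  have hU : ⋃ n, K n = univ := by
    refine eq_univ_of_forall ?_
    rintro ⟨_, s, rfl⟩
    obtain ⟨n, hn⟩ := exists_nat_ge ‖s‖
    exact mem_iUnion.mpr ⟨n, s, mem_closedBall_zero_iff.mpr hn, rfl⟩
  obtain ⟨n, ⟨_, s₀, rfl⟩, hk⟩ := nonempty_interior_of_iUnion_of_closed hK hU
  obtain ⟨W, hW, hWo, hW0⟩ := mem_interior.mp hk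
  obtain ⟨U, hUo, rfl⟩ := isOpen_induced_iff.mp hWo
  obtain ⟨T, hT⟩ := hc.elim_finite_subcover (fun t : Fin q → ℝ => F t ⁻¹' U)
    (fun t => hUo.preimage (hF.comp (continuous_const.prodMk continuous_id))) (by
      rintro _ ⟨s, rfl⟩
      refine mem_iUnion.mpr ⟨s₀ - s, ?_⟩
      change F (s₀ - s) (F s x) ∈ U
      rw [← hadd, sub_add_cancel]
      exact hW0)
  refine ⟨n + ∑ t ∈ T, ‖t‖, fun s => ?_⟩
  obtain ⟨t, ht, hts⟩ := mem_iUnion₂.mp (hT ⟨s, rfl⟩)
  have h1 : (⟨F (t + s) x, t + s, rfl⟩ : leaf F x) ∈ K n := by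
    apply hW
    change F (t + s) x ∈ U
    rw [hadd]
    exact hts
  obtain ⟨b, hb, hbe⟩ := h1
  refine ⟨-t + b, ?_, ?_⟩
  · have h2 : ‖t‖ ≤ ∑ t ∈ T, ‖t‖ :=
      Finset.single_le_sum (f := fun t : Fin q → ℝ => ‖t‖) (fun _ _ => norm_nonneg _) ht
    have h3 := norm_add_le (-t) b
    rw [norm_neg] at h3
    linarith [mem_closedBall_zero_iff.mp hb]
  · have h4 : F b x = F (t + s) x := hbe
    rw [hadd, h4, ← hadd, neg_add_cancel_left]

/-- On a compact orbit no non-zero functional kills all periods. -/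
theorem exists_period {q : ℕ} {M : Type} [TopologicalSpace M] [T2Space M]
    {F : (Fin q → ℝ) → M → M} (hF : Continuous fun p : (Fin q → ℝ) × M => F p.1 p.2)
    (h0 : ∀ x, F 0 x = x) (hadd : ∀ s t x, F (s + t) x = F s (F t x)) {x : M}
    (hc : IsCompact (leaf F x)) (φ : (Fin q → ℝ) →L[ℝ] ℝ) {a : Fin q → ℝ} (ha : φ a ≠ 0) :
    ∃ t, F t x = x ∧ φ t ≠ 0 := by
  obtain ⟨C, hC⟩ := exists_bound_of_isCompact hF h0 hadd hc
  obtain ⟨s', hs', he⟩ := hC (((‖φ‖ * C + 1) / φ a) • a)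
  refine ⟨-s' + ((‖φ‖ * C + 1) / φ a) • a, ?_, ?_⟩
  · rw [hadd, ← he, ← hadd, neg_add_cancel, h0]
  · rw [map_add, map_neg, map_smul, smul_eq_mul, div_mul_cancel₀ _ ha]
    have h1 : φ s' ≤ ‖φ‖ * C :=
      (le_abs_self _).trans ((φ.le_opNorm s').trans (mul_le_mul_of_nonneg_left hs' (norm_nonneg _)))
    linarith

/-- An orbit of an action of `ℝ^q`, `q ≥ 2`, whose periods lie on a line is not compact. -/
theorem not_isCompact_of_periods {k : ℕ} {M : Type} [TopologicalSpace M] [T2Space M]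
    {F : (Fin (k + 1 + 1) → ℝ) → M → M}
    (hF : Continuous fun p : (Fin (k + 1 + 1) → ℝ) × M => F p.1 p.2)
    (h0 : ∀ x, F 0 x = x) (hadd : ∀ s t x, F (s + t) x = F s (F t x)) {x : M}
    (h : ∀ s t, F s x = x → F t x = x → ¬ LinearIndependent ℝ ![s, t]) :
    ¬ IsCompact (leaf F x) := by
  intro hc
  let c : Fin (k + 1 + 1) → (Fin (k + 1 + 1) → ℝ) →L[ℝ] ℝ := fun i =>
    ContinuousLinearMap.proj (R := ℝ) (φ := fun _ : Fin (k + 1 + 1) => ℝ) i
  obtain ⟨s, hs, hs0⟩ := exists_period hF h0 hadd hc (c 0) (a := fun _ => 1) one_ne_zero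
  have hs1 : s 0 ≠ 0 := hs0
  obtain ⟨t, ht, ht0⟩ := exists_period hF h0 hadd hc (s 0 • c 1 - s 1 • c 0) (a := Pi.single 1 1)
    (by simpa [c] using hs1)
  have ht1 : s 0 * t 1 - s 1 * t 0 ≠ 0 := ht0
  apply h s t hs ht
  rw [LinearIndependent.pair_iff]
  intro a b hab
  have e0 : a * s 0 + b * t 0 = 0 := congrFun hab 0
  have e1 : a * s 1 + b * t 1 = 0 := congrFun hab 1
  constructor
  · apply (mul_eq_zero.mp (show a * (s 0 * t 1 - s 1 * t 0) = 0 by
      linear_combination t 1 * e0 - t 0 * e1)).resolve_right ht1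
  · apply (mul_eq_zero.mp (show b * (s 0 * t 1 - s 1 * t 0) = 0 by
      linear_combination s 0 * e1 - s 1 * e0)).resolve_right ht1

theorem linearIndependent_pow : LinearIndependent ℤ (fun n : ℕ => liouvilleNumber 2 ^ n) := by
  have h1 : Transcendental ℤ (liouvilleNumber 2) := by
    exact_mod_cast transcendental_liouvilleNumber (le_refl 2)
  have h2 := (Polynomial.basisMonomials ℤ).linearIndependent.map'
    (Polynomial.aeval (liouvilleNumber 2)).toLinearMap
    (LinearMap.ker_eq_bot.mpr (transcendental_iff_injective.mp h1))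
  have h3 : (Polynomial.aeval (R := ℤ) (liouvilleNumber 2)).toLinearMap ∘
      (Polynomial.basisMonomials ℤ) = fun n : ℕ => liouvilleNumber 2 ^ n := by
    funext n
    simp
  rw [h3] at h2
  exact h2

theorem coeff_eq_zero {K : ℕ} (c : Fin K → Fin K → ℤ)
    (h : ∑ i, ∑ l, (c i l : ℝ) * (liouvilleNumber 2 ^ (i : ℕ) * liouvilleNumber 2 ^ (K * (l : ℕ))) = 0)
    (i l : Fin K) : c i l = 0 := by
  have h1 := linearIndependent_pow.comp (fun a : Fin K × Fin K => (finProdFinEquiv a : ℕ))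
    (Fin.val_injective.comp finProdFinEquiv.injective)
  rw [Fintype.linearIndependent_iff] at h1
  refine h1 (fun a => c a.2 a.1) ?_ (l, i)
  rw [← h, Fintype.sum_prod_type_right]
  refine Finset.sum_congr rfl fun i _ => Finset.sum_congr rfl fun l _ => ?_
  simp [finProdFinEquiv, pow_add]

theorem coeff_eq_zero' {K : ℕ} (c : Fin K → ℤ)
    (h : ∑ i, (c i : ℝ) * liouvilleNumber 2 ^ (i : ℕ) = 0) (i : Fin K) : c i = 0 := by
  have h1 := linearIndependent_pow.comp (fun a : Fin K => (a : ℕ)) Fin.val_injective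
  rw [Fintype.linearIndependent_iff] at h1
  refine h1 c ?_ i
  rw [← h]
  simp

variable {m k : ℕ}

/-- The integer data of a period. -/
theorem period_data {x : Mf m k} {t : Fin (k + 1 + 1) → ℝ} (ht : act t x = x) :
    ∃ A B : Fin (k + 1 + 1) → ℤ, (∀ j : Fin (k + 1), (A j.succ : ℝ) = t 0 - t j.succ) ∧
      (∀ j : Fin (k + 1), B j.succ = A j.succ) ∧
      ∑ i, (A i : ℝ) * liouvilleNumber 2 ^ (i : ℕ) = t 0 * pt x 0 ∧
      ∑ l, (B l : ℝ) * liouvilleNumber 2 ^ ((k + 1 + 1) * (l : ℕ)) = t 0 * pt x 1 := by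
  have h1 : x.1 + proj (psi (pt x) t) = x.1 := congrArg Prod.fst ht
  choose z hz using int_of_proj_eq_zero (add_eq_left.mp h1)
  have hb : ∀ j : Fin (k + 1), t j.succ - t 0 = z (Sum.inr j) := fun j => hz (Sum.inr j)
  have h0 : t 0 * pt x 0 + ∑ j : Fin (k + 1), (t j.succ - t 0) * liouvilleNumber 2 ^ (j.succ : ℕ) =
      z (Sum.inl 0) := hz (Sum.inl 0)
  have h2 : t 0 * pt x 1 + ∑ j : Fin (k + 1), (t j.succ - t 0) *
      liouvilleNumber 2 ^ ((k + 1 + 1) * (j.succ : ℕ)) = z (Sum.inl 1) := hz (Sum.inl 1)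
  simp only [hb] at h0 h2
  refine ⟨Fin.cons (z (Sum.inl 0)) fun j => -z (Sum.inr j),
    Fin.cons (z (Sum.inl 1)) fun j => -z (Sum.inr j), fun j => ?_, fun j => rfl, ?_, ?_⟩
  · rw [Fin.cons_succ, Int.cast_neg, ← hb]
    ring
  · rw [Fin.sum_univ_succ]
    simp only [Fin.cons_zero, Fin.cons_succ, Int.cast_neg, neg_mul, Finset.sum_neg_distrib,
      Fin.val_zero, pow_zero, mul_one]
    linarith
  · rw [Fin.sum_univ_succ]
    simp only [Fin.cons_zero, Fin.cons_succ, Int.cast_neg, neg_mul, Finset.sum_neg_distrib,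
      Fin.val_zero, mul_zero, pow_zero, mul_one]
    linarith

theorem relation_of_periods {x : Mf m k} {s t : Fin (k + 1 + 1) → ℝ} (hs : act s x = x)
    (ht : act t x = x) {l : Fin (k + 1)} (hl : s 0 - s l.succ ≠ 0) :
    (s 0 - s l.succ) • t = (t 0 - t l.succ) • s := by
  obtain ⟨A, B, hA, hB, h0, h1⟩ := period_data hs
  obtain ⟨A', B', hA', hB', h0', h1'⟩ := period_data ht
  have hc : ∀ i l, A i * B' l - A' i * B l = 0 := by
    apply coeff_eq_zero
    have e : (∑ i, (A i : ℝ) * liouvilleNumber 2 ^ (i : ℕ)) *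
        (∑ l, (B' l : ℝ) * liouvilleNumber 2 ^ ((k + 1 + 1) * (l : ℕ))) -
        (∑ i, (A' i : ℝ) * liouvilleNumber 2 ^ (i : ℕ)) *
        (∑ l, (B l : ℝ) * liouvilleNumber 2 ^ ((k + 1 + 1) * (l : ℕ))) = 0 := by
      rw [h0, h1, h0', h1']
      ring
    rw [← e, Finset.sum_mul_sum, Finset.sum_mul_sum, ← Finset.sum_sub_distrib]
    refine Finset.sum_congr rfl fun i _ => ?_
    rw [← Finset.sum_sub_distrib]
    refine Finset.sum_congr rfl fun l _ => ?_
    push_cast
    ring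
  have hd : ∀ i, (A i : ℝ) * A' l.succ = A' i * A l.succ := fun i => by
    have := hc i l.succ
    rw [hB, hB'] at this
    exact_mod_cast sub_eq_zero.mp this
  have hp : pt x 0 ≠ 0 := by
    intro hp
    rw [hp, mul_zero] at h0
    apply hl
    rw [← hA, coeff_eq_zero' A h0, Int.cast_zero]
  have he : (A l.succ : ℝ) * t 0 = A' l.succ * s 0 := by
    apply mul_right_cancel₀ hp
    rw [mul_assoc, mul_assoc, ← h0, ← h0', Finset.mul_sum, Finset.mul_sum]
    refine Finset.sum_congr rfl fun i _ => ?_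
    linear_combination (-liouvilleNumber 2 ^ (i : ℕ)) * hd i
  rw [← hA, ← hA']
  funext i
  refine Fin.cases he (fun j => ?_) i
  change (A l.succ : ℝ) * t j.succ = A' l.succ * s j.succ
  have e1 := hA j
  have e2 := hA' j
  linear_combination he + hd j.succ + (A l.succ : ℝ) * e2 - (A' l.succ : ℝ) * e1

theorem periods_dependent (x : Mf m k) (s t : Fin (k + 1 + 1) → ℝ) (hs : act s x = x)
    (ht : act t x = x) : ¬ LinearIndependent ℝ ![s, t] := by
  rw [LinearIndependent.pair_iff]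
  intro h
  have h1 : ∀ l : Fin (k + 1), s 0 - s l.succ = 0 := fun l => by
    by_contra hl
    have e := relation_of_periods hs ht hl
    exact hl (h (-(t 0 - t l.succ)) (s 0 - s l.succ) (by rw [e, neg_smul, neg_add_cancel])).2
  have h2 : ∀ l : Fin (k + 1), t 0 - t l.succ = 0 := fun l => by
    by_contra hl
    have e := relation_of_periods ht hs hl
    exact hl (h (t 0 - t l.succ) (-(s 0 - s l.succ)) (by rw [e, neg_smul, add_neg_cancel])).1
  have h3 := h (t 0) (-(s 0)) (by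
    funext i
    refine Fin.cases ?_ (fun j => ?_) i
    · change t 0 * s 0 + -(s 0) * t 0 = 0
      ring
    · change t 0 * s j.succ + -(s 0) * t j.succ = 0
      linear_combination (-t 0) * h1 j + s 0 * h2 j)
  have h4 := h 1 0 (by
    funext i
    have h5 : s 0 = 0 := neg_eq_zero.mp h3.2
    refine Fin.cases ?_ (fun j => ?_) i
    · change 1 * s 0 + 0 * t 0 = 0
      linear_combination h5
    · change 1 * s j.succ + 0 * t j.succ = 0
      linear_combination h5 - h1 j)
  exact one_ne_zero h4.1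

theorem not_isCompact_leaf (x : Mf m k) : ¬ IsCompact (leaf act x) :=
  not_isCompact_of_periods contMDiff_act.continuous isActionOfFlows.2.1 isActionOfFlows.2.2.1
    (periods_dependent x)

end Pool.Agent.Lib.MP_666db5_gt.AD
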